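import Mathlib

-- merged part: Pool.Agent.Work.MP_eab7e5_al.Abstract
section
/-!
Abstract construction: a group `G` of units of a ring `B` normalising a subring `D` gives the
strongly graded ring `⨁ g, g D`.
-/

namespace Pool.Agent.Work.MP_eab7e5_al

open DirectSum

variable {B G : Type} [Ring B] [Group G]

/-- The homogeneous component `g D`. -/
def comp (D : Subring B) (φ : G →* B) (g : Additive G) : AddSubgroup B where
  carrier := {b | φ (g.toMul)⁻¹ * b ∈ D}
  add_mem' ha hb := by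
    simp only [Set.mem_ofPred_eq, mul_add] at *
    exact D.add_mem ha hb
  zero_mem' := by simp
  neg_mem' ha := by
    simp only [Set.mem_ofPred_eq, mul_neg] at *
    exact D.neg_mem ha

theorem mem_comp {D : Subring B} {φ : G →* B} {g : Additive G} {b : B} :
    b ∈ comp D φ g ↔ φ (g.toMul)⁻¹ * b ∈ D := Iff.rfl

theorem mem_comp_zero {D : Subring B} {φ : G →* B} {b : B} : b ∈ comp D φ 0 ↔ b ∈ D := by
  simp [mem_comp]

theorem phi_mem (D : Subring B) (φ : G →* B) (g : G) : φ g ∈ comp D φ (Additive.ofMul g) := by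
  rw [mem_comp, toMul_ofMul, ← map_mul, inv_mul_cancel, map_one]; exact D.one_mem

theorem gradedMonoid (D : Subring B) (φ : G →* B)
    (hN : ∀ g, ∀ d ∈ D, φ g * d * φ g⁻¹ ∈ D) : SetLike.GradedMonoid (comp D φ) where
  one_mem := mem_comp_zero.2 D.one_mem
  mul_mem i j a b ha hb := by
    rw [mem_comp] at *
    have h := D.mul_mem (hN (j.toMul)⁻¹ _ ha) hb
    rw [inv_inv] at h
    convert h using 1
    rw [toMul_add, mul_inv_rev, map_mul]
    simp only [mul_assoc]
    rw [← mul_assoc (φ j.toMul), ← map_mul, mul_inv_cancel, map_one, one_mul]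

theorem abstract [Nontrivial B] (D : Subring B) (φ : G →* B)
    (hN : ∀ g, ∀ d ∈ D, φ g * d * φ g⁻¹ ∈ D)
    (hS : ∀ J : AddSubgroup B, (∀ j ∈ J, j ∈ D) → (∀ d ∈ D, ∀ j ∈ J, d * j ∈ J ∧ j * d ∈ J) →
      (∀ g, ∀ j ∈ J, φ g * j * φ g⁻¹ ∈ J) → (∃ j ∈ J, j ≠ 0) → 1 ∈ J)
    (hC : ∀ g ≠ 1, ∀ d ∈ D, (∀ a ∈ D, φ g * d * a = a * (φ g * d)) → φ g * d = 0)
    (hX : ∃ g ≠ 1, ∃ d ∈ D, φ g * d ∈ D ∧ φ g * d ≠ 0) :
    ∃ (R : Type) (_ : Ring R) (𝒜 : G → AddSubgroup R),
      (1 : R) ≠ 0 ∧ iSupIndep 𝒜 ∧ iSup 𝒜 = ⊤ ∧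
      (∀ g h, AddSubgroup.closure {z | ∃ x ∈ 𝒜 g, ∃ y ∈ 𝒜 h, z = x * y} = 𝒜 (g * h)) ∧
      (∀ I : TwoSidedIdeal R,
        (∀ x ∈ I, x ∈ AddSubgroup.closure {y | y ∈ I ∧ ∃ g, y ∈ 𝒜 g}) → I = ⊥ ∨ I = ⊤) ∧
      {r : R | ∀ a ∈ 𝒜 1, r * a = a * r} = {r : R | r ∈ 𝒜 1 ∧ ∀ a ∈ 𝒜 1, r * a = a * r} ∧
      ∃ I : TwoSidedIdeal R, I ≠ ⊥ ∧ I ≠ ⊤ := by
  classical
  have := gradedMonoid D φ hN
  let A := comp D φ
  let R := ⨁ g, A g
  let o : ∀ g : Additive G, A g →+ R := fun g => DirectSum.of (fun i => A i) g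
  have omul : ∀ (i j : Additive G) (a : A i) (b : A j),
      o i a * o j b = o (i + j) ⟨a * b, SetLike.GradedMul.mul_mem a.2 b.2⟩ :=
    fun i j a b => DirectSum.of_mul_of (A := fun i => A i) a b
  have ocongr : ∀ (i j : Additive G) (a : A i) (b : A j), i = j → (a : B) = b → o i a = o j b := by
    rintro i j a b rfl h
    rw [Subtype.ext h]
  have oone : o 0 ⟨1, mem_comp_zero.2 D.one_mem⟩ = 1 := rfl
  have hφ : ∀ g : G, φ g * φ g⁻¹ = 1 := fun g => by rw [← map_mul, mul_inv_cancel, map_one]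
  have hφ' : ∀ g : G, φ g⁻¹ * φ g = 1 := fun g => by rw [← map_mul, inv_mul_cancel, map_one]
  let aug : R →+* B := DirectSum.coeRingHom A
  have haug : ∀ (i : Additive G) (a : A i), aug (o i a) = a := DirectSum.coeRingHom_of A
  refine ⟨R, inferInstance, fun g => (o (Additive.ofMul g)).range, ?_, ?_, ?_, ?_, ?_, ?_, ?_⟩
  · intro h
    have := congrArg aug h
    simp at this
  · intro g
    rw [disjoint_iff, eq_bot_iff]
    rintro x ⟨⟨y, rfl⟩, hx⟩
    have hle : (⨆ h, ⨆ (_ : h ≠ g), (o (Additive.ofMul h)).range) ≤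
        (DFinsupp.evalAddMonoidHom (β := fun i => A i) (Additive.ofMul g)).ker := by
      refine iSup_le fun h => iSup_le fun hh => ?_
      rintro _ ⟨z, rfl⟩
      exact DirectSum.of_eq_of_ne (β := fun i => A i) _ _ z (fun e => hh (Additive.ofMul.injective e).symm)
    have h0 : (o (Additive.ofMul g) y) (Additive.ofMul g) = 0 := hle hx
    rw [DirectSum.of_eq_same] at h0
    rw [h0, map_zero]
    exact AddSubgroup.mem_bot.2 rfl
  · rw [eq_top_iff]
    rintro x -
    induction x using DirectSum.induction_on with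
    | zero => exact zero_mem _
    | of i a => exact AddSubgroup.mem_iSup_of_mem i.toMul ⟨a, rfl⟩
    | add x y hx hy => exact add_mem hx hy
  · intro g h
    apply le_antisymm
    · rw [AddSubgroup.closure_le]
      rintro _ ⟨_, ⟨a, rfl⟩, _, ⟨b, rfl⟩, rfl⟩
      rw [omul]
      exact ⟨_, rfl⟩
    · rintro _ ⟨c, rfl⟩
      apply AddSubgroup.subset_closure
      have hc : φ g⁻¹ * c ∈ A (Additive.ofMul h) := by
        have := c.2
        rw [mem_comp] at this ⊢
        rw [toMul_ofMul] at this ⊢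
        rwa [mul_inv_rev, map_mul, mul_assoc] at this
      refine ⟨_, ⟨⟨φ g, phi_mem D φ g⟩, rfl⟩, _, ⟨⟨_, hc⟩, rfl⟩, ?_⟩
      rw [omul]
      apply ocongr _ _ _ _ rfl
      simp only
      rw [← mul_assoc, hφ, one_mul]
  · intro I hI
    by_cases h0 : I = ⊥
    · exact Or.inl h0
    right
    have hex : ∃ g : G, ∃ a : A (Additive.ofMul g), o _ a ∈ I ∧ (a : B) ≠ 0 := by
      by_contra hne
      push Not at hne
      apply h0
      rw [eq_bot_iff]
      intro x hx
      have hle : AddSubgroup.closure {y | y ∈ I ∧ ∃ g, y ∈ (o (Additive.ofMul g)).range} ≤ ⊥ := by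
        rw [AddSubgroup.closure_le]
        rintro _ ⟨hy, g, a, rfl⟩
        have : a = 0 := Subtype.ext (hne g a hy)
        rw [this, map_zero]
        exact AddSubgroup.mem_bot.2 rfl
      exact hle (hI x hx)
    obtain ⟨g, a, ha, ha0⟩ := hex
    let J : AddSubgroup B :=
      { carrier := {b | ∃ hb : b ∈ A 0, o 0 ⟨b, hb⟩ ∈ I}
        add_mem' := by
          rintro x y ⟨hx, hx'⟩ ⟨hy, hy'⟩
          refine ⟨add_mem hx hy, ?_⟩
          have := I.add_mem hx' hy'
          rwa [← map_add] at this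
        zero_mem' := ⟨zero_mem _, by
          have : (⟨0, zero_mem _⟩ : A 0) = 0 := rfl
          rw [this, map_zero]; exact I.zero_mem⟩
        neg_mem' := by
          rintro x ⟨hx, hx'⟩
          refine ⟨neg_mem hx, ?_⟩
          have := I.neg_mem hx'
          rwa [← map_neg] at this }
    have h1 : (1 : B) ∈ J := by
      apply hS J
      · rintro j ⟨hj, -⟩; exact mem_comp_zero.1 hj
      · rintro d hd j ⟨hj, hj'⟩
        have hd' : d ∈ A 0 := mem_comp_zero.2 hd
        have hj2 := mem_comp_zero.1 hj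
        constructor
        · refine ⟨mem_comp_zero.2 (D.mul_mem hd hj2), ?_⟩
          have := I.mul_mem_left (o 0 ⟨d, hd'⟩) _ hj'
          rw [omul] at this
          convert this using 1
          exact ocongr _ _ _ _ (by simp) rfl
        · refine ⟨mem_comp_zero.2 (D.mul_mem hj2 hd), ?_⟩
          have := I.mul_mem_right _ (o 0 ⟨d, hd'⟩) hj'
          rw [omul] at this
          convert this using 1
          exact ocongr _ _ _ _ (by simp) rfl
      · rintro g j ⟨hj, hj'⟩
        refine ⟨mem_comp_zero.2 (hN g j (mem_comp_zero.1 hj)), ?_⟩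
        have := I.mul_mem_right _ (o _ ⟨φ g⁻¹, phi_mem D φ g⁻¹⟩)
          (I.mul_mem_left (o _ ⟨φ g, phi_mem D φ g⟩) _ hj')
        rw [omul, omul] at this
        convert this using 1
        exact ocongr _ _ _ _ (by simp) rfl
      · refine ⟨φ g⁻¹ * a, ⟨mem_comp_zero.2 a.2, ?_⟩, ?_⟩
        · have := I.mul_mem_left (o _ ⟨φ g⁻¹, phi_mem D φ g⁻¹⟩) _ ha
          rw [omul] at this
          convert this using 1
          exact ocongr _ _ _ _ (by simp) rfl
        · intro h
          apply ha0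
          rw [← one_mul (a : B), ← hφ g, mul_assoc, h, mul_zero]
    obtain ⟨_, h1'⟩ := h1
    exact TwoSidedIdeal.eq_top I h1'
  · ext r
    simp only [Set.mem_ofPred_eq]
    refine ⟨fun h => ⟨?_, h⟩, fun h => h.2⟩
    refine ⟨r 0, ?_⟩
    ext i
    by_cases hi : i = 0
    · subst hi
      exact congrArg _ (DirectSum.of_eq_same (β := fun i => A i) _ _)
    · have e1 : (o (Additive.ofMul 1) (r 0)) i = 0 :=
        DirectSum.of_eq_of_ne (β := fun i => A i) _ _ _ hi
      rw [e1]
      have hd : φ (i.toMul)⁻¹ * r i ∈ D := (r i).2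
      have e2 : φ i.toMul * (φ (i.toMul)⁻¹ * r i) = r i := by rw [← mul_assoc, hφ, one_mul]
      have := hC i.toMul hi _ hd (fun a ha => by
        rw [e2]
        have h3 := congrArg (fun z : R => (z i : B)) (h _ ⟨⟨a, mem_comp_zero.2 ha⟩, rfl⟩)
        have h4 := DirectSum.coe_mul_of_apply_of_mem_zero A r ⟨a, mem_comp_zero.2 ha⟩ i
        have h5 := DirectSum.coe_of_mul_apply_of_mem_zero A ⟨a, mem_comp_zero.2 ha⟩ r i
        exact h4.symm.trans (h3.trans h5))
      rw [e2] at this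
      exact this.symm
  · obtain ⟨g, hg, d, hd, hd', hd0⟩ := hX
    have hm : φ g * d ∈ A (Additive.ofMul g) := by
      rw [mem_comp, toMul_ofMul, ← mul_assoc, hφ', one_mul]; exact hd
    refine ⟨TwoSidedIdeal.ker aug, ?_, ?_⟩
    · intro h
      have hk : o _ ⟨_, hm⟩ - o 0 ⟨_, mem_comp_zero.2 hd'⟩ ∈ TwoSidedIdeal.ker aug := by
        rw [TwoSidedIdeal.mem_ker, map_sub, haug, haug, sub_self]
      rw [h, TwoSidedIdeal.mem_bot, sub_eq_zero] at hk
      have h2 := congrArg (fun z : R => z (Additive.ofMul g)) hk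
      simp only [o] at h2
      have hg' : Additive.ofMul g ≠ 0 := hg
      rw [DirectSum.of_eq_same, DirectSum.of_eq_of_ne (β := fun i => A i) _ _ _ hg'] at h2
      exact hd0 (congrArg Subtype.val h2)
    · intro h
      have : (1 : R) ∈ TwoSidedIdeal.ker aug := by rw [h]; trivial
      rw [TwoSidedIdeal.mem_ker, map_one] at this
      exact one_ne_zero this

end Pool.Agent.Work.MP_eab7e5_al
end

-- merged part: Pool.Agent.Work.MP_eab7e5_al.Field
section
/-!
The field `K = ℚ(x_i : i ∈ ℤ)`, the localisation `E` at polynomials divisible by no variable,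
diagonal and permutation automorphisms, and Laurent monomials.
-/

namespace Pool.Agent.Work.MP_eab7e5_al

open MvPolynomial

/-- The polynomial ring. -/
abbrev PP := MvPolynomial ℤ ℚ

/-- Its fraction field. -/
abbrev KK := FractionRing PP

/-- The embedding. -/
noncomputable abbrev al : PP →+* KK := algebraMap PP KK

theorem al_inj : Function.Injective al := IsFractionRing.injective PP KK

/-- The variables. -/
noncomputable def xx (i : ℤ) : KK := al (X i)

theorem xx_ne (i : ℤ) : xx i ≠ 0 := fun h =>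
  X_ne_zero (R := ℚ) i (al_inj (h.trans (map_zero al).symm))

/-- Setting the variable `i` to zero. -/
noncomputable def kill (i : ℤ) : PP →ₐ[ℚ] PP := aeval fun j => if j = i then 0 else X j

theorem kill_X (i j : ℤ) : kill i (X j) = if j = i then 0 else X j := by simp [kill]

theorem kill_C (i : ℤ) (t : ℚ) : kill i (C t) = C t := by simp [kill]

theorem kill_comm (i j : ℤ) (f : PP) : kill i (kill j f) = kill j (kill i f) := by
  have : (kill i).comp (kill j) = (kill j).comp (kill i) := by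
    apply MvPolynomial.algHom_ext
    intro k
    simp only [AlgHom.comp_apply, kill_X]
    split_ifs with h1 h2 h2 <;> simp [kill_X, *]
  exact DFunLike.congr_fun this f

theorem kill_of_notMem {i : ℤ} {f : PP} (h : i ∉ f.vars) : kill i f = f := by
  have := hom_congr_vars (f₁ := (kill i : PP →+* PP)) (f₂ := RingHom.id PP) (p₁ := f) (p₂ := f)
    (by ext t; simp) (fun j hj _ => by
      have : j ≠ i := fun e => h (e ▸ hj)
      simp [kill_X, this]) rfl
  simpa using this

theorem X_dvd_sub_kill (i : ℤ) (f : PP) : X i ∣ f - kill i f := by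
  induction f using MvPolynomial.induction_on with
  | C a => simp
  | add p q hp hq =>
    have := dvd_add hp hq
    rw [map_add]
    convert this using 1; ring
  | mul_X p j hp =>
    rw [map_mul, kill_X]
    split_ifs with h
    · rw [h]; simp
    · rw [← sub_mul]; exact hp.mul_right _

/-- Localisation at the polynomials divisible by no variable with index in `A`. -/
def Loc (A : Set ℤ) : Subring KK where
  carrier := {y | ∃ f s : PP, (∀ i ∈ A, kill i s ≠ 0) ∧ y * al s = al f}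
  mul_mem' := by
    rintro a b ⟨f, s, hs, h⟩ ⟨f', s', hs', h'⟩
    refine ⟨f * f', s * s', fun i hi => ?_, ?_⟩
    · rw [map_mul]; exact mul_ne_zero (hs i hi) (hs' i hi)
    · rw [map_mul, map_mul, ← h, ← h']; ring
  one_mem' := ⟨1, 1, fun i _ => by simp, by simp⟩
  add_mem' := by
    rintro a b ⟨f, s, hs, h⟩ ⟨f', s', hs', h'⟩
    refine ⟨f * s' + f' * s, s * s', fun i hi => ?_, ?_⟩
    · rw [map_mul]; exact mul_ne_zero (hs i hi) (hs' i hi)
    · rw [map_add, map_mul, map_mul, map_mul, ← h, ← h']; ring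
  zero_mem' := ⟨0, 1, fun i _ => by simp, by simp⟩
  neg_mem' := by
    rintro a ⟨f, s, hs, h⟩
    exact ⟨-f, s, hs, by rw [map_neg, ← h]; ring⟩

/-- The ring `E`. -/
abbrev EE : Subring KK := Loc Set.univ

theorem al_mem (A : Set ℤ) (f : PP) : al f ∈ Loc A := ⟨f, 1, fun i _ => by simp, by simp⟩

theorem al_C (t : ℚ) : al (C t) = (t : KK) := eq_ratCast (al.comp C) t

theorem rat_mem (A : Set ℤ) (t : ℚ) : (t : KK) ∈ Loc A := al_C t ▸ al_mem A (C t)

theorem inv_mem_Loc {A : Set ℤ} {s : PP} (hs0 : s ≠ 0) (hs : ∀ i ∈ A, kill i s ≠ 0) :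
    (al s)⁻¹ ∈ Loc A :=
  ⟨1, s, hs, by rw [inv_mul_cancel₀ (fun h => hs0 (al_inj (h.trans (map_zero al).symm))), map_one]⟩

theorem EE_le (A : Set ℤ) : EE ≤ Loc A := by
  rintro y ⟨f, s, hs, h⟩
  exact ⟨f, s, fun i _ => hs i trivial, h⟩

theorem aut_al (σ : RingAut KK) (π : ℤ → ℤ) (t : ℤ → ℚ) (h : ∀ i, σ (xx i) = t i * xx (π i))
    (f : PP) : σ (al f) = al (aeval (fun i => C (t i) * X (π i)) f) := by
  induction f using MvPolynomial.induction_on with
  | C a => rw [al_C, map_ratCast, aeval_C, algebraMap_eq, al_C]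
  | add p q hp hq => simp only [map_add, hp, hq]
  | mul_X p j hp =>
    rw [map_mul, map_mul, hp, map_mul, aeval_X, map_mul, map_mul, al_C]
    exact congrArg _ (h j)

theorem aut_mem_EE (σ : RingAut KK) (π : Equiv.Perm ℤ) (t : ℤ → ℚ)
    (h : ∀ i, σ (xx i) = t i * xx (π i)) {y : KK} (hy : y ∈ EE) : σ y ∈ EE := by
  obtain ⟨f, s, hs, hy⟩ := hy
  let ψ : PP →ₐ[ℚ] PP := aeval (fun i => C (t i) * X (π i))
  refine ⟨ψ f, ψ s, fun j _ => ?_, ?_⟩
  · obtain ⟨i, rfl⟩ := π.surjective j
    have e : (kill (π i)).comp ψ = ψ.comp (kill i) := by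
      apply MvPolynomial.algHom_ext
      intro k
      simp only [AlgHom.comp_apply, ψ, aeval_X, map_mul, kill_X, kill_C]
      by_cases hk : k = i <;> simp [hk]
    have e' : kill (π i) (ψ s) = ψ (kill i s) := DFunLike.congr_fun e s
    rw [e']
    intro h0
    apply hs i trivial
    have h1 := aut_al σ π t h (kill i s)
    change _ = al (ψ _) at h1
    rw [h0, map_zero, map_eq_zero] at h1
    exact al_inj (h1.trans (map_zero al).symm)
  · rw [← aut_al σ π t h, ← aut_al σ π t h, ← map_mul, hy]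

theorem aut_eq_one (σ : RingAut KK) (h : ∀ i, σ (xx i) = xx i) : σ = 1 := by
  have h1 : ∀ f, σ (al f) = al f := by
    intro f
    rw [aut_al σ id (fun _ => 1) (by simpa using h)]
    simp
  ext y
  obtain ⟨f, s, -, rfl⟩ := IsFractionRing.div_surjective (A := PP) y
  rw [map_div₀, h1, h1]
  rfl

/-- Diagonal automorphisms. -/
def HH : Subgroup (RingAut KK) where
  carrier := {σ | ∀ i, ∃ t : ℚ, σ (xx i) = t * xx i}
  one_mem' i := ⟨1, by simp⟩
  mul_mem' := by
    intro σ τ hσ hτ i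
    obtain ⟨t, ht⟩ := hσ i
    obtain ⟨u, hu⟩ := hτ i
    refine ⟨u * t, ?_⟩
    change σ (τ _) = _
    rw [hu, map_mul, map_ratCast, ht]; push_cast; ring
  inv_mem' := by
    intro σ hσ i
    obtain ⟨t, ht⟩ := hσ i
    have ht0 : (t : KK) ≠ 0 := by
      intro h
      rw [h, zero_mul, map_eq_zero] at ht
      exact xx_ne i ht
    refine ⟨t⁻¹, ?_⟩
    apply σ.injective
    change σ (σ.symm _) = _
    rw [σ.apply_symm_apply, map_mul, map_ratCast, ht]; push_cast; field_simp

/-- Permutations of the variables. -/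
def Pm : Subgroup (RingAut KK) where
  carrier := {σ | ∃ π : Equiv.Perm ℤ, ∀ i, σ (xx i) = xx (π i)}
  one_mem' := ⟨1, fun i => rfl⟩
  mul_mem' := by
    rintro σ τ ⟨π, hπ⟩ ⟨ρ, hρ⟩
    refine ⟨π * ρ, fun i => ?_⟩
    change σ (τ _) = _
    rw [hρ, hπ]; rfl
  inv_mem' := by
    rintro σ ⟨π, hπ⟩
    refine ⟨π⁻¹, fun i => ?_⟩
    apply σ.injective
    change σ (σ.symm _) = _
    rw [σ.apply_symm_apply, hπ]; simp

theorem HH_mem_EE {σ : RingAut KK} (hσ : σ ∈ HH) {y : KK} (hy : y ∈ EE) : σ y ∈ EE := by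
  choose t ht using hσ
  exact aut_mem_EE σ 1 t ht hy

theorem Pm_mem_EE {σ : RingAut KK} (hσ : σ ∈ Pm) {y : KK} (hy : y ∈ EE) : σ y ∈ EE := by
  obtain ⟨π, hπ⟩ := hσ
  exact aut_mem_EE σ π (fun _ => 1) (by simpa using hπ) hy

theorem conj_mem_HH {σ τ : RingAut KK} (hσ : σ ∈ Pm) (hτ : τ ∈ HH) : σ * τ * σ⁻¹ ∈ HH := by
  obtain ⟨π, hπ⟩ := hσ
  intro j
  obtain ⟨i, rfl⟩ := π.surjective j
  obtain ⟨t, ht⟩ := hτ i
  refine ⟨t, ?_⟩
  change σ (τ (σ.symm _)) = _
  rw [← hπ, σ.symm_apply_apply, ht, map_mul, map_ratCast]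

theorem eq_one_of_mem {σ : RingAut KK} (h1 : σ ∈ Pm) (h2 : σ ∈ HH) : σ = 1 := by
  obtain ⟨π, hπ⟩ := h1
  apply aut_eq_one
  intro i
  obtain ⟨t, ht⟩ := h2 i
  rw [hπ] at ht ⊢
  by_contra hne
  have hi : π i ≠ i := fun e => hne (by rw [e])
  have e : (X (π i) : PP) = C t * X i := by
    apply al_inj
    rw [map_mul, al_C]; exact ht
  have e2 := congrArg (kill i) e
  simp [kill_X, hi] at e2

/-- The shift by `N`. -/
noncomputable def shift (N : ℤ) : RingAut KK :=
  IsFractionRing.ringEquivOfRingEquiv (renameEquiv ℚ (Equiv.addRight N)).toRingEquiv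

theorem shift_al (N : ℤ) (f : PP) : shift N (al f) = al (rename (· + N) f) :=
  IsFractionRing.ringEquivOfRingEquiv_algebraMap _ _

theorem shift_mem (N : ℤ) : shift N ∈ Pm :=
  ⟨Equiv.addRight N, fun i => by unfold xx; rw [shift_al]; simp⟩

/-- Scaling the variable `i`. -/
noncomputable def scaleP (i : ℤ) (t : ℚ) : PP →ₐ[ℚ] PP :=
  aeval fun j => if j = i then C t * X j else X j

theorem scaleP_comp (i : ℤ) (t u : ℚ) (h : t * u = 1) :
    (scaleP i t).comp (scaleP i u) = AlgHom.id ℚ PP := by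
  apply MvPolynomial.algHom_ext
  intro k
  by_cases hk : k = i
  · simp only [scaleP, hk, AlgHom.comp_apply, aeval_X, if_true, map_mul, aeval_C, algebraMap_eq,
      AlgHom.id_apply]
    rw [← mul_assoc, ← map_mul, mul_comm u, h, map_one, one_mul]
  · simp [scaleP, hk]

/-- Doubling the variable `i`. -/
noncomputable def tau (i : ℤ) : RingAut KK :=
  IsFractionRing.ringEquivOfRingEquiv (AlgEquiv.ofAlgHom (scaleP i 2) (scaleP i (1 / 2))
    (scaleP_comp i _ _ (by norm_num)) (scaleP_comp i _ _ (by norm_num))).toRingEquiv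

theorem tau_al (i : ℤ) (f : PP) : tau i (al f) = al (scaleP i 2 f) :=
  IsFractionRing.ringEquivOfRingEquiv_algebraMap _ _

theorem tau_mem (i : ℤ) : tau i ∈ HH := by
  intro j
  unfold xx
  rw [tau_al]
  by_cases h : j = i
  · exact ⟨2, by simp only [scaleP, h, aeval_X, if_true, map_mul, al_C]⟩
  · exact ⟨1, by simp [scaleP, h]⟩

theorem kill_scaleP (i : ℤ) (t : ℚ) (f : PP) : kill i (scaleP i t f) = kill i f := by
  have : (kill i).comp (scaleP i t) = kill i := by
    apply MvPolynomial.algHom_ext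
    intro k
    by_cases hk : k = i <;> simp [scaleP, hk, kill_X]
  exact DFunLike.congr_fun this f

theorem eq_zero_of_invariant {i : ℤ} {o : KK} (ho : o ∈ Loc {i})
    (h : tau i (xx i * o) = xx i * o) : xx i * o = 0 := by
  obtain ⟨f, s, hs, hf⟩ := ho
  have hs' := hs i rfl
  by_cases hf0 : f = 0
  · have hs0 : al s ≠ 0 := by
      intro e
      apply hs'
      rw [al_inj (e.trans (map_zero al).symm), map_zero]
    rw [hf0, map_zero] at hf
    rw [(mul_eq_zero.1 hf).resolve_right hs0, mul_zero]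
  exfalso
  have hXu : ¬ IsUnit (X i : PP) := fun hu => by
    have := hu.map (kill i)
    simp [kill_X] at this
  obtain ⟨n, a, ha, rfl⟩ := WfDvdMonoid.max_power_factor' hf0 hXu
  have e1 : xx i * o * al s = al (X i ^ (n + 1) * a) := by
    rw [mul_assoc, hf, xx, ← map_mul]; congr 1; ring
  have e2 := congrArg (tau i) e1
  rw [map_mul, h, tau_al, tau_al] at e2
  have e3 : X i ^ (n + 1) * a * scaleP i 2 s = scaleP i 2 (X i ^ (n + 1) * a) * s := by
    apply al_inj
    rw [map_mul, map_mul al _ s, ← e1, ← e2]; ring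
  have e4 : scaleP i 2 (X i) = C 2 * X i := by simp [scaleP]
  rw [map_mul, map_pow, e4, mul_pow] at e3
  have e5 : a * scaleP i 2 s = C 2 ^ (n + 1) * scaleP i 2 a * s := by
    apply mul_left_cancel₀ (pow_ne_zero (n + 1) (X_ne_zero (R := ℚ) i))
    linear_combination e3
  have e6 := congrArg (kill i) e5
  rw [map_mul, map_mul, map_mul, kill_scaleP, kill_scaleP, map_pow, kill_C] at e6
  have e7 : (C (2 ^ (n + 1) - 1) : PP) * (kill i a * kill i s) = 0 := by
    rw [map_sub, map_pow, map_one]; linear_combination -e6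
  have h2 : ((2 : ℚ) ^ (n + 1) - 1) ≠ 0 := by
    have : (1 : ℚ) < 2 ^ (n + 1) := one_lt_pow₀ (by norm_num) (by omega)
    linarith
  have e8 := (mul_eq_zero.1 e7).resolve_left (fun e => h2 (C_eq_zero.1 e))
  have e9 := (mul_eq_zero.1 e8).resolve_right hs'
  apply ha
  have := X_dvd_sub_kill i a
  rwa [e9, sub_zero] at this

/-- Laurent monomials. -/
noncomputable def mono (a : ℤ →₀ ℤ) : KK := a.prod fun i k => xx i ^ k

/-- The degree of a Laurent monomial. -/
def deg (a : ℤ →₀ ℤ) : ℤ := a.sum fun _ k => k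

theorem mono_zero : mono 0 = 1 := by simp [mono]

theorem mono_add (a b : ℤ →₀ ℤ) : mono (a + b) = mono a * mono b :=
  Finsupp.prod_add_index' (fun _ => zpow_zero _) (fun i _ _ => zpow_add₀ (xx_ne i) _ _)

theorem mono_single (i k : ℤ) : mono (Finsupp.single i k) = xx i ^ k :=
  Finsupp.prod_single_index (zpow_zero _)

theorem mono_neg (a : ℤ →₀ ℤ) : mono a * mono (-a) = 1 := by
  rw [← mono_add, add_neg_cancel, mono_zero]

theorem mono_ne (a : ℤ →₀ ℤ) : mono a ≠ 0 := left_ne_zero_of_mul_eq_one (mono_neg a)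

theorem deg_add (a b : ℤ →₀ ℤ) : deg (a + b) = deg a + deg b :=
  Finsupp.sum_add_index' (fun _ => rfl) (fun _ _ _ => rfl)

theorem deg_zero : deg 0 = 0 := by simp [deg]

theorem deg_single (i k : ℤ) : deg (Finsupp.single i k) = k := Finsupp.sum_single_index rfl

theorem deg_neg (a : ℤ →₀ ℤ) : deg (-a) = -deg a := by
  have := deg_add a (-a)
  rw [add_neg_cancel, deg_zero] at this
  linarith

theorem Pm_mono {σ : RingAut KK} (hσ : σ ∈ Pm) (a : ℤ →₀ ℤ) :
    ∃ b, deg b = deg a ∧ σ (mono a) = mono b := by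
  obtain ⟨π, hπ⟩ := hσ
  induction a using Finsupp.induction_linear with
  | zero => exact ⟨0, rfl, by rw [mono_zero, map_one]⟩
  | add f g hf hg =>
    obtain ⟨b, hb, hb'⟩ := hf
    obtain ⟨c, hc, hc'⟩ := hg
    exact ⟨b + c, by rw [deg_add, deg_add, hb, hc], by rw [mono_add, mono_add, map_mul, hb', hc']⟩
  | single i k =>
    exact ⟨Finsupp.single (π i) k, by rw [deg_single, deg_single],
      by rw [mono_single, mono_single, map_zpow₀, hπ]⟩

theorem HH_mono {σ : RingAut KK} (hσ : σ ∈ HH) (a : ℤ →₀ ℤ) :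
    ∃ t : ℚ, σ (mono a) = t * mono a := by
  induction a using Finsupp.induction_linear with
  | zero => exact ⟨1, by simp [mono_zero]⟩
  | add f g hf hg =>
    obtain ⟨b, hb⟩ := hf
    obtain ⟨c, hc⟩ := hg
    exact ⟨b * c, by rw [mono_add, map_mul, hb, hc]; push_cast; ring⟩
  | single i k =>
    obtain ⟨t, ht⟩ := hσ i
    exact ⟨t ^ k, by rw [mono_single, map_zpow₀, ht, mul_zpow]; push_cast; ring⟩

theorem mono_mem_Loc {i : ℤ} {a : ℤ →₀ ℤ} (h : 0 ≤ a i) : mono a ∈ Loc {i} := by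
  unfold mono Finsupp.prod
  refine Subring.prod_mem _ fun j _ => ?_
  beta_reduce
  rcases le_or_gt 0 (a j) with hj | hj
  · obtain ⟨k, hk⟩ := Int.eq_ofNat_of_zero_le hj
    rw [hk, zpow_natCast]
    exact Subring.pow_mem _ (al_mem _ _) _
  · have hij : j ≠ i := by rintro rfl; omega
    obtain ⟨k, hk⟩ := Int.eq_ofNat_of_zero_le (show 0 ≤ -a j by omega)
    have : a j = -(k : ℤ) := by omega
    rw [this, zpow_neg, zpow_natCast, ← inv_pow]
    refine Subring.pow_mem _ (inv_mem_Loc (X_ne_zero j) ?_) _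
    rintro _ rfl
    simp [kill_X, hij]

theorem exists_pos {a : ℤ →₀ ℤ} (h0 : a ≠ 0) (hd : deg a = 0) : ∃ i, 0 < a i := by
  by_contra hne
  push Not at hne
  apply h0
  have := (Finset.sum_eq_zero_iff_of_nonpos (s := a.support) (f := fun i => a i)
    (fun i _ => hne i)).1 hd
  ext i
  by_cases hi : i ∈ a.support
  · exact this i hi
  · simpa using hi

/-- A nonzero polynomial and a suitable shift of it generate the unit ideal of `E`. -/
theorem exists_comax {f : PP} (hf : f ≠ 0) :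
    ∃ N j : ℤ, ∀ i, kill i (f + X j * rename (· + N) f) ≠ 0 := by
  obtain ⟨M, hM⟩ := (f.vars.image fun i => |i|).bddAbove
  have hM' : ∀ i ∈ f.vars, |i| ≤ M := fun i hi =>
    hM (Finset.mem_coe.2 (Finset.mem_image_of_mem _ hi))
  refine ⟨2 * M + 1, M + 1, fun i h => ?_⟩
  have hj : M + 1 ∉ f.vars := fun hj => by
    have := (abs_le.1 (hM' _ hj)).2
    omega
  rw [map_add, map_mul, kill_X] at h
  split_ifs at h with hi
  · rw [← hi, kill_of_notMem hj] at h
    exact hf (by simpa using h)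
  · have h1 := congrArg (kill (M + 1)) h
    rw [map_add, map_mul, kill_X, if_pos rfl, zero_mul, add_zero, kill_comm, kill_of_notMem hj,
      map_zero] at h1
    rw [h1, zero_add] at h
    have h2 := (mul_eq_zero.1 h).resolve_left (X_ne_zero _)
    by_cases hv : i ∈ f.vars
    · have hv' : i ∉ (rename (· + (2 * M + 1)) f).vars := by
        intro h3
        obtain ⟨k, hk, hk'⟩ := Finset.mem_image.1 (vars_rename _ _ h3)
        have a1 := abs_le.1 (hM' _ hk)
        have a2 := abs_le.1 (hM' _ hv)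
        omega
      rw [kill_of_notMem hv'] at h2
      exact hf (rename_injective _ (add_left_injective _) (h2.trans (map_zero _).symm))
    · rw [kill_of_notMem hv] at h1
      exact hf h1

end Pool.Agent.Work.MP_eab7e5_al
end

-- merged part: Pool.Agent.Work.MP_eab7e5_al.Main
section
/-!
The ring `D` spanned by `E` and the diagonal automorphisms inside the additive endomorphisms of
`K`, and the group `G` generated by degree zero monomials and permutations of the variables.
-/

namespace Pool.Agent.Work.MP_eab7e5_al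

open MvPolynomial

/-- Additive endomorphisms of the field. -/
abbrev BB := AddMonoid.End KK

/-- Multiplication operators. -/
noncomputable def mm : KK →+* BB := Module.toAddMonoidEnd KK KK

/-- Field automorphisms as operators. -/
noncomputable def io : RingAut KK →* BB := DistribMulAction.toAddMonoidEnd (RingAut KK) KK

@[simp] theorem mm_apply (c y : KK) : mm c y = c * y := rfl

@[simp] theorem io_apply (σ : RingAut KK) (y : KK) : io σ y = σ y := rfl

theorem BB_mul_apply (a b : BB) (y : KK) : (a * b) y = a (b y) := rfl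

theorem BB_ext {a b : BB} (h : ∀ y, a y = b y) : a = b := AddMonoidHom.ext h

theorem io_mm (σ : RingAut KK) (c : KK) : io σ * mm c = mm (σ c) * io σ :=
  BB_ext fun y => by simp [BB_mul_apply]

theorem BB_sum_apply {n : ℕ} (f : Fin n → BB) (y : KK) : (∑ k, f k) y = ∑ k, f k y :=
  AddMonoidHom.finsetSum_apply f Finset.univ y

theorem mm_inj : Function.Injective mm := fun a b h => by
  simpa using DFunLike.congr_fun h 1

theorem BB_nontrivial : Nontrivial BB := ⟨⟨mm 0, mm 1, fun h => zero_ne_one (mm_inj h)⟩⟩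

theorem term_mul (a b : KK) (σ τ : RingAut KK) :
    mm a * io σ * (mm b * io τ) = mm (a * σ b) * io (σ * τ) := by
  rw [map_mul, map_mul, mul_assoc, ← mul_assoc (io σ), io_mm]
  simp only [mul_assoc]

/-- The terms `e h`. -/
def TT : Submonoid BB where
  carrier := {b | ∃ e ∈ EE, ∃ h ∈ HH, b = mm e * io h}
  one_mem' := ⟨1, one_mem _, 1, one_mem _, by simp⟩
  mul_mem' := by
    rintro _ _ ⟨e, he, h, hh, rfl⟩ ⟨e', he', h', hh', rfl⟩
    exact ⟨e * h e', mul_mem he (HH_mem_EE hh he'), h * h', mul_mem hh hh', term_mul _ _ _ _⟩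

/-- The ring `D`. -/
noncomputable def DD : Subring BB := Subring.closure TT

theorem mm_mem {e : KK} (he : e ∈ EE) : mm e ∈ DD :=
  Subring.subset_closure ⟨e, he, 1, one_mem _, by simp⟩

theorem io_mem {h : RingAut KK} (hh : h ∈ HH) : io h ∈ DD :=
  Subring.subset_closure ⟨1, one_mem _, h, hh, by simp⟩

/-- Sums of `n` terms with coefficients in `C` and automorphisms in `S`. -/
def Rep (C : Set KK) (S : Set (RingAut KK)) (n : ℕ) (b : BB) : Prop :=
  ∃ (e : Fin n → KK) (h : Fin n → RingAut KK), (∀ k, e k ∈ C) ∧ (∀ k, h k ∈ S) ∧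
    b = ∑ k, mm (e k) * io (h k)

theorem rep_of_mem {b : BB} (hb : b ∈ DD) : ∃ n, Rep EE HH n b := by
  rw [DD, Subring.mem_closure_iff, Submonoid.closure_eq] at hb
  induction hb using AddSubgroup.closure_induction with
  | mem x hx =>
    obtain ⟨e, he, h, hh, rfl⟩ := hx
    exact ⟨1, fun _ => e, fun _ => h, fun _ => he, fun _ => hh, by simp⟩
  | zero => exact ⟨0, Fin.elim0, Fin.elim0, fun k => k.elim0, fun k => k.elim0, by simp⟩
  | add x y _ _ hx hy =>
    obtain ⟨n, e, h, he, hh, rfl⟩ := hx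
    obtain ⟨n', e', h', he', hh', rfl⟩ := hy
    refine ⟨n + n', Fin.append e e', Fin.append h h', ?_, ?_, ?_⟩
    · intro k; refine Fin.addCases (fun i => ?_) (fun i => ?_) k <;> simp [he, he']
    · intro k; refine Fin.addCases (fun i => ?_) (fun i => ?_) k <;> simp [hh, hh']
    · rw [Fin.sum_univ_add]; simp
  | neg x _ hx =>
    obtain ⟨n, e, h, he, hh, rfl⟩ := hx
    exact ⟨n, fun k => -e k, h, fun k => neg_mem (he k), hh, by
      rw [← Finset.sum_neg_distrib]
      exact Finset.sum_congr rfl fun k _ => BB_ext fun z => by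
        change -(e k * h k z) = -e k * h k z
        ring⟩

theorem apply_one_mem {b : BB} (hb : b ∈ DD) : b 1 ∈ EE := by
  obtain ⟨n, e, h, he, -, rfl⟩ := rep_of_mem hb
  rw [BB_sum_apply]
  refine Subring.sum_mem _ fun k _ => ?_
  simpa [BB_mul_apply] using he k

private theorem eq_mm_field_aux {K : Type*} [Field K] (b : K → K) (f s : K) (hs : s ≠ 0)
    (h1 : b (s * (f / s)) = s * b (f / s)) (h2 : b (f * 1) = f * b 1) :
    b (f / s) = b 1 * (f / s) := by
  rw [mul_one] at h2
  rw [mul_div_cancel₀ _ hs, h2] at h1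
  apply mul_left_cancel₀ hs
  rw [← h1, mul_left_comm, mul_div_cancel₀ _ hs, mul_comm]

theorem eq_mm_of_comm {b : BB} (h : ∀ e ∈ EE, b * mm e = mm e * b) : b = mm (b 1) := by
  apply BB_ext
  intro y
  obtain ⟨f, s, hs, rfl⟩ := IsFractionRing.div_surjective (A := PP) y
  have hs0 : al s ≠ 0 := fun e =>
    nonZeroDivisors.ne_zero hs (al_inj (e.trans (map_zero al).symm))
  have h1 := DFunLike.congr_fun (h _ (al_mem _ s)) (al f / al s)
  have h2 := DFunLike.congr_fun (h _ (al_mem _ f)) 1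
  rw [BB_mul_apply, BB_mul_apply, mm_apply, mm_apply] at h1 h2
  rw [mm_apply]
  exact eq_mm_field_aux (fun x => b x) _ _ hs0 h1 h2

/-- A nonzero ideal of `D` contains a nonzero multiplication operator. -/
theorem exists_mm (J : AddSubgroup BB) (hJ : ∀ j ∈ J, j ∈ DD)
    (hD : ∀ d ∈ DD, ∀ j ∈ J, d * j ∈ J ∧ j * d ∈ J) (n : ℕ) :
    ∀ b ∈ J, b ≠ 0 → Rep EE HH n b → ∃ e ∈ EE, e ≠ 0 ∧ mm e ∈ J := by
  induction n with
  | zero =>
    rintro b - hb ⟨e, h, -, -, rfl⟩
    simp at hb
  | succ n ih =>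
    rintro b hbJ hb ⟨e, h, he, hh, hrep⟩
    have hb' : b * io (h 0)⁻¹ ∈ J := (hD _ (io_mem (inv_mem (hh 0))) _ hbJ).2
    have hne : b * io (h 0)⁻¹ ≠ 0 := by
      intro h0
      apply hb
      rw [← mul_one b, ← map_one io, ← inv_mul_cancel (h 0), map_mul, ← mul_assoc, h0, zero_mul]
    have hrep' : b * io (h 0)⁻¹ = mm (e 0) + ∑ k : Fin n, mm (e k.succ) * io (h k.succ * (h 0)⁻¹) := by
      rw [hrep, Fin.sum_univ_succ, add_mul, Finset.sum_mul, mul_assoc, ← map_mul, mul_inv_cancel,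
        map_one, mul_one]
      simp only [map_mul, mul_assoc]
    generalize b * io (h 0)⁻¹ = c at hb' hne hrep'
    by_cases hc : ∀ y ∈ EE, c * mm y = mm y * c
    · have h1 := eq_mm_of_comm hc
      refine ⟨c 1, apply_one_mem (hJ _ hb'), ?_, h1 ▸ hb'⟩
      intro h0
      rw [h0, map_zero] at h1
      exact hne h1
    · push Not at hc
      obtain ⟨y, hy, hy'⟩ := hc
      refine ih (c * mm y - mm y * c)
        (sub_mem (hD _ (mm_mem hy) _ hb').2 (hD _ (mm_mem hy) _ hb').1) (sub_ne_zero.2 hy')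
        ⟨fun k => e k.succ * ((h k.succ * (h 0)⁻¹) y - y), fun k => h k.succ * (h 0)⁻¹,
          fun k => ?_, fun k => mul_mem (hh _) (inv_mem (hh 0)), ?_⟩
      · exact mul_mem (he _) (sub_mem (HH_mem_EE (mul_mem (hh _) (inv_mem (hh 0))) hy) hy)
      · rw [hrep', add_mul, mul_add, ← map_mul, ← map_mul, mul_comm y, add_sub_add_left_eq_sub,
          Finset.sum_mul, Finset.mul_sum, ← Finset.sum_sub_distrib]
        refine Finset.sum_congr rfl fun k _ => BB_ext fun z => ?_
        beta_reduce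
        generalize h k.succ * (h 0)⁻¹ = σ
        change e k.succ * σ (y * z) - y * (e k.succ * σ z) = e k.succ * (σ y - y) * σ z
        rw [map_mul]; ring

/-- Dedekind's independence lemma in the form needed here. -/
theorem dedekind (n : ℕ) : ∀ c : KK, Rep Set.univ {σ | σ ≠ 1} n (mm c) → c = 0 := by
  induction n with
  | zero =>
    rintro c ⟨e, h, -, -, hc⟩
    exact mm_inj (by simpa using hc)
  | succ n ih =>
    rintro c ⟨e, h, -, hh, hc⟩
    obtain ⟨y, hy⟩ : ∃ y, h 0 y ≠ y := by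
      by_contra hne
      push Not at hne
      exact hh 0 (RingEquiv.ext hne)
    have := ih (c * (y - h 0 y)) ⟨fun k => e k.succ * (h k.succ y - h 0 y), fun k => h k.succ,
      fun _ => trivial, fun k => hh _, ?_⟩
    · exact (mul_eq_zero.1 this).resolve_right (sub_ne_zero.2 hy.symm)
    · apply BB_ext
      intro z
      have h1 := DFunLike.congr_fun hc (y * z)
      have h2 := DFunLike.congr_fun hc z
      rw [BB_sum_apply, Fin.sum_univ_succ] at h1 h2
      rw [BB_sum_apply]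
      simp only [BB_mul_apply, mm_apply, io_apply, map_mul] at h1 h2 ⊢
      have h3 : ∑ k : Fin n, e k.succ * ((h k.succ y - h 0 y) * h k.succ z) =
          ∑ k : Fin n, e k.succ * (h k.succ y * h k.succ z) -
            h 0 y * ∑ k : Fin n, e k.succ * h k.succ z := by
        rw [Finset.mul_sum, ← Finset.sum_sub_distrib]
        exact Finset.sum_congr rfl fun k _ => by ring
      rw [h3]
      linear_combination h1 - h 0 y * h2

theorem term_inv (a : ℤ →₀ ℤ) (σ : RingAut KK) :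
    mm (mono a) * io σ * (mm (σ⁻¹ (mono (-a))) * io σ⁻¹) = 1 := by
  rw [term_mul, mul_inv_cancel, map_one, mul_one]
  change mm (mono a * σ (σ.symm _)) = 1
  rw [σ.apply_symm_apply, mono_neg, map_one]

theorem term_inv' (a : ℤ →₀ ℤ) (σ : RingAut KK) :
    mm (σ⁻¹ (mono (-a))) * io σ⁻¹ * (mm (mono a) * io σ) = 1 := by
  rw [term_mul, inv_mul_cancel, map_one, mul_one, ← map_mul, mul_comm, mono_neg, map_one, map_one]

/-- The grading group. -/
def GG : Subgroup BBˣ where
  carrier := {u | ∃ a, deg a = 0 ∧ ∃ σ ∈ Pm, (u : BB) = mm (mono a) * io σ}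
  one_mem' := ⟨0, deg_zero, 1, one_mem _, by simp [mono_zero]⟩
  mul_mem' := by
    rintro u v ⟨a, ha, σ, hσ, hu⟩ ⟨b, hb, τ, hτ, hv⟩
    obtain ⟨c, hc, hc'⟩ := Pm_mono hσ b
    refine ⟨a + c, by rw [deg_add, hc, ha, hb, add_zero], σ * τ, mul_mem hσ hτ, ?_⟩
    rw [Units.val_mul, hu, hv, term_mul, hc', mono_add]
  inv_mem' := by
    rintro u ⟨a, ha, σ, hσ, hu⟩
    obtain ⟨c, hc, hc'⟩ := Pm_mono (inv_mem hσ) (-a)
    refine ⟨c, by rw [hc, deg_neg, ha, neg_zero], σ⁻¹, inv_mem hσ, ?_⟩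
    apply Units.inv_eq_of_mul_eq_one_right
    rw [hu, ← hc', term_inv]

/-- An element of the grading group. -/
noncomputable def mkG (a : ℤ →₀ ℤ) (ha : deg a = 0) (σ : RingAut KK) (hσ : σ ∈ Pm) : GG :=
  ⟨⟨mm (mono a) * io σ, _, term_inv a σ, term_inv' a σ⟩, a, ha, σ, hσ, rfl⟩

/-- The inclusion of the grading group. -/
noncomputable def ph : GG →* BB := (Units.coeHom BB).comp GG.subtype

theorem ph_inv {g : GG} {a : ℤ →₀ ℤ} {σ : RingAut KK} (h : ph g = mm (mono a) * io σ) :
    ph g⁻¹ = mm (σ⁻¹ (mono (-a))) * io σ⁻¹ := by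
  have h1 : ph g⁻¹ * ph g = 1 := by rw [← map_mul, inv_mul_cancel, map_one]
  rw [← mul_one (ph g⁻¹), ← term_inv a σ, ← h, ← mul_assoc, h1, one_mul]

theorem normalizes (g : GG) (d : BB) (hd : d ∈ DD) : ph g * d * ph g⁻¹ ∈ DD := by
  obtain ⟨a, -, σ, hσ, hg⟩ := g.2
  change ph g = _ at hg
  obtain ⟨n, e, h, he, hh, rfl⟩ := rep_of_mem hd
  rw [Finset.mul_sum, Finset.sum_mul]
  refine Subring.sum_mem _ fun k _ => ?_
  rw [ph_inv hg, hg, term_mul, term_mul]
  have h1 := conj_mem_HH hσ (hh k)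
  obtain ⟨t, ht⟩ := HH_mono h1 (-a)
  refine mul_mem (mm_mem ?_) (io_mem h1)
  have : mono a * σ (e k) * (σ * h k) (σ⁻¹ (mono (-a))) = t * σ (e k) := by
    have h2 : (σ * h k) (σ⁻¹ (mono (-a))) = (σ * h k * σ⁻¹) (mono (-a)) := rfl
    rw [h2, ht]
    linear_combination (t * σ (e k)) * mono_neg a
  rw [this]
  exact mul_mem (rat_mem _ t) (Pm_mem_EE hσ (he k))

theorem simple (J : AddSubgroup BB) (hJ : ∀ j ∈ J, j ∈ DD)
    (hD : ∀ d ∈ DD, ∀ j ∈ J, d * j ∈ J ∧ j * d ∈ J)
    (hG : ∀ g : GG, ∀ j ∈ J, ph g * j * ph g⁻¹ ∈ J) (h0 : ∃ j ∈ J, j ≠ 0) : 1 ∈ J := by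
  obtain ⟨j, hj, hj0⟩ := h0
  obtain ⟨n, hn⟩ := rep_of_mem (hJ j hj)
  obtain ⟨e, ⟨f, s, hs, hf⟩, he0, he⟩ := exists_mm J hJ hD n j hj hj0 hn
  have hs0 : al s ≠ 0 := by
    intro h
    apply hs 0 trivial
    rw [al_inj (h.trans (map_zero al).symm), map_zero]
  have hf0 : f ≠ 0 := by
    rintro rfl
    rw [map_zero] at hf
    exact mul_ne_zero he0 hs0 hf
  have h1 : mm (al f) ∈ J := by
    rw [← hf, map_mul]; exact (hD _ (mm_mem (al_mem _ s)) _ he).2
  obtain ⟨N, i, hN⟩ := exists_comax hf0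
  have h2 : mm (al (rename (· + N) f)) ∈ J := by
    have h3 := hG (mkG 0 deg_zero (shift N) (shift_mem N)) _ h1
    have h4 : ph (mkG 0 deg_zero (shift N) (shift_mem N)) = mm (mono 0) * io (shift N) := rfl
    rw [ph_inv h4, h4, neg_zero, mono_zero, map_one, map_one, map_one, one_mul, one_mul, io_mm,
      mul_assoc, ← map_mul, mul_inv_cancel, map_one, mul_one, shift_al] at h3
    exact h3
  have h5 : mm (al (f + X i * rename (· + N) f)) ∈ J := by
    rw [map_add, map_add, map_mul, map_mul]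
    exact add_mem h1 (hD _ (mm_mem (al_mem _ _)) _ h2).1
  have h6 : f + X i * rename (· + N) f ≠ 0 := by
    intro h
    apply hN 0
    rw [h, map_zero]
  have h7 := (hD _ (mm_mem (inv_mem_Loc h6 fun k _ => hN k)) _ h5).1
  rwa [← map_mul, inv_mul_cancel₀ (fun h => h6 (al_inj (h.trans (map_zero al).symm))),
    map_one] at h7

theorem centralizer (g : GG) (hg1 : g ≠ 1) (d : BB) (hd : d ∈ DD)
    (h : ∀ a ∈ DD, ph g * d * a = a * (ph g * d)) : ph g * d = 0 := by
  obtain ⟨a, ha, σ, hσ, hg⟩ := g.2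
  change ph g = _ at hg
  have h1 := eq_mm_of_comm fun e he => h _ (mm_mem he)
  suffices (ph g * d) 1 = 0 by rw [h1, this, map_zero]
  by_cases hσ1 : σ = 1
  · have ha0 : a ≠ 0 := by
      rintro rfl
      apply hg1
      apply Subtype.ext
      apply Units.ext
      change ph g = 1
      rw [hg, hσ1, mono_zero, map_one, map_one, one_mul]
    obtain ⟨i, hi⟩ := exists_pos ha0 ha
    have h2 : (ph g * d) 1 = xx i * (mono (a - Finsupp.single i 1) * d 1) := by
      rw [hg, hσ1, map_one io, mul_one, BB_mul_apply, mm_apply, ← mul_assoc]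
      congr 1
      have := mono_add (Finsupp.single i 1) (a - Finsupp.single i 1)
      rwa [add_sub_cancel, mono_single, zpow_one] at this
    have h3 := DFunLike.congr_fun (h _ (io_mem (tau_mem i))) 1
    rw [BB_mul_apply _ (io _), BB_mul_apply (io _), io_apply, io_apply, map_one, h2] at h3
    rw [h2]
    refine eq_zero_of_invariant (mul_mem (mono_mem_Loc ?_) (EE_le _ (apply_one_mem hd))) h3.symm
    simp only [Finsupp.coe_sub, Pi.sub_apply, Finsupp.single_eq_same]
    omega
  · obtain ⟨n, e, k, -, hk, hrep⟩ := rep_of_mem hd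
    refine dedekind n _ ⟨fun j => mono a * σ (e j), fun j => σ * k j, fun _ => trivial, ?_, ?_⟩
    · intro j hj
      apply hσ1
      refine eq_one_of_mem hσ ?_
      rw [eq_inv_of_mul_eq_one_left hj]
      exact inv_mem (hk j)
    · rw [← h1, hg, hrep, Finset.mul_sum]
      exact Finset.sum_congr rfl fun j _ => term_mul _ _ _ _

theorem overlap : ∃ g : GG, g ≠ 1 ∧ ∃ d ∈ DD, ph g * d ∈ DD ∧ ph g * d ≠ 0 := by
  have hd : deg (Finsupp.single 0 1 + Finsupp.single 1 (-1)) = 0 := by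
    rw [deg_add, deg_single, deg_single]; rfl
  have h1 : ph (mkG _ hd 1 (one_mem _)) * mm (xx 1) = mm (xx 0) := by
    change mm (mono _) * io 1 * mm (xx 1) = _
    rw [map_one, mul_one, ← map_mul, mono_add, mono_single, mono_single]
    congr 1
    have := xx_ne 1
    field_simp
  refine ⟨mkG _ hd 1 (one_mem _), ?_, mm (xx 1), mm_mem (al_mem _ _), ?_, ?_⟩
  · intro h
    rw [h, map_one, one_mul] at h1
    have h2 := X_injective (R := ℚ) (al_inj (mm_inj h1))
    omega
  · rw [h1]; exact mm_mem (al_mem _ _)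
  · rw [h1]
    intro h
    exact xx_ne 0 (mm_inj (h.trans (map_zero mm).symm))

end Pool.Agent.Work.MP_eab7e5_al
end
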